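import Pool.Agent.SGB.Stmts

/-!
# Row MNC: bad points carry little mass
-/

set_option autoImplicit false

open Finset
open scoped Pointwise

namespace Pool.Agent.SGB.H10

open Pool.Agent.SGB

universe u

theorem nn_pos (H : Type u) [AddCommGroup H] [Fintype H] : 0 < nn H := by
  unfold nn
  exact_mod_cast Nat.card_pos

theorem cd_pos {H : Type u} [AddCommGroup H] [Fintype H] (A : AddSubgroup H) : 0 < cd A := by
  unfold cd
  exact_mod_cast Nat.card_pos

theorem uu_nonneg {H : Type u} [AddCommGroup H] {ι : Type} (S : ι → AddSubgroup H) (k : ι) :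
    0 ≤ uu S k := by
  unfold uu
  positivity

theorem uu_le {H : Type u} [AddCommGroup H] [Fintype H] {ι : Type} (S : ι → AddSubgroup H) (k : ι)
    {G : ℝ} (h : nn H ≤ G * cd (S k)) : uu S k ≤ Real.sqrt (G / nn H) := by
  have hN := nn_pos H
  have hc := cd_pos (S k)
  apply Real.le_sqrt_of_sq_le
  unfold uu
  rw [div_pow, Real.sq_sqrt hc.le, one_pow, div_le_div_iff₀ hc hN, one_mul]
  exact h

open Classical in
theorem mnc : MNCStmt.{u} := by
  intro H _ _ ι _ S G PS PT hG hk
  have hN := nn_pos H
  have hterm : ∀ z : H, (∑ k, if z ∈ S k then uu S k else 0) ^ 2 ≤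
      (Fintype.card ι : ℝ) ^ 2 * (G / nn H) := by
    intro z
    have h0 : 0 ≤ ∑ k, (if z ∈ S k then uu S k else 0) := by
      refine Finset.sum_nonneg fun k _ => ?_
      split_ifs
      · exact uu_nonneg S k
      · exact le_rfl
    have h1 : ∑ k, (if z ∈ S k then uu S k else 0) ≤
        (Fintype.card ι : ℝ) * Real.sqrt (G / nn H) := by
      calc ∑ k, (if z ∈ S k then uu S k else 0) ≤ ∑ _k : ι, Real.sqrt (G / nn H) := by
            refine Finset.sum_le_sum fun k _ => ?_
            split_ifs
            · exact uu_le S k (hk k)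
            · exact Real.sqrt_nonneg _
        _ = (Fintype.card ι : ℝ) * Real.sqrt (G / nn H) := by
            rw [Finset.sum_const, Finset.card_univ, nsmul_eq_mul]
    calc (∑ k, if z ∈ S k then uu S k else 0) ^ 2 ≤
        ((Fintype.card ι : ℝ) * Real.sqrt (G / nn H)) ^ 2 := pow_le_pow_left₀ h0 h1 2
      _ = (Fintype.card ι : ℝ) ^ 2 * (G / nn H) := by
          rw [mul_pow, Real.sq_sqrt (by positivity)]
  have hc0 : 0 ≤ (Fintype.card ι : ℝ) ^ 2 * (G / nn H) := by positivity
  calc (∑ z : H, if z ∈ PS + PT then (∑ k, if z ∈ S k then uu S k else 0) ^ 2 else 0)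
      ≤ ∑ z : H, if z ∈ PS + PT then (Fintype.card ι : ℝ) ^ 2 * (G / nn H) else 0 := by
        refine Finset.sum_le_sum fun z _ => ?_
        split_ifs
        · exact hterm z
        · exact le_rfl
    _ = ((PS + PT).card : ℝ) * ((Fintype.card ι : ℝ) ^ 2 * (G / nn H)) := by
        rw [← Finset.sum_filter, Finset.sum_const, nsmul_eq_mul]
        have e : (Finset.univ.filter fun z : H => z ∈ PS + PT) = PS + PT := by
          ext z
          rw [Finset.mem_filter]
          exact ⟨fun h => h.2, fun h => ⟨Finset.mem_univ _, h⟩⟩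
        rw [e]
    _ ≤ PS.card * PT.card * ((Fintype.card ι : ℝ) ^ 2 * (G / nn H)) := by
        refine mul_le_mul_of_nonneg_right ?_ hc0
        exact_mod_cast Finset.card_add_le

end Pool.Agent.SGB.H10
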